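import Pool.Agent.H.MP_2feb19_an.G

open Filter Topology Metric Set MeasureTheory ComplexConjugate
open scoped Real Interval

namespace Pool.Agent.Results.MP_2feb19_an.Division

def BMO (ω : ℝ → ℝ) (f : ℂ → ℂ) : Prop :=
  CircleIntegrable f 0 1 ∧ ∃ C, ∀ a : ℝ, ∀ h ∈ Ioo (0 : ℝ) 1, ⨍ θ in a..a + 2 * π * h,
    ‖f (circleMap 0 1 θ) - ⨍ t in a..a + 2 * π * h, f (circleMap 0 1 t)‖ ≤ C * ω h

def Linf (f : ℂ → ℂ) : Prop := ∃ M, ∀ᵐ θ : ℝ, ‖f (circleMap 0 1 θ)‖ ≤ M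

def H1 (f : ℂ → ℂ) : Prop :=
  CircleIntegrable f 0 1 ∧ ∀ n : ℕ, Real.circleAverage (fun ζ => ζ ^ (n + 1) * f ζ) 0 1 = 0

noncomputable def ext (f : ℂ → ℂ) (z : ℂ) : ℂ :=
  Real.circleAverage (fun ζ => poissonKernel 0 z ζ • f ζ) 0 1

def Inner (Θ : ℂ → ℂ) : Prop :=
  DifferentiableOn ℂ Θ (ball 0 1) ∧ (∃ M, ∀ z ∈ ball (0 : ℂ) 1, ‖Θ z‖ ≤ M) ∧ ∀ᵐ θ : ℝ, ∃ w : ℂ, ‖w‖ = 1 ∧
    Tendsto (fun r : ℝ => Θ (r * Complex.exp (θ * Complex.I))) (𝓝[<] 1) (𝓝 w)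

noncomputable def bv (Θ : ℂ → ℂ) (ζ : ℂ) : ℂ := limUnder (𝓝[<] 1) fun r : ℝ => Θ (r * ζ)

def Three (ω : ℝ → ℝ) (f Θ : ℂ → ℂ) (ε : ℝ) : Prop :=
  ∃ C, ∀ z : ℂ, 0 < ‖z‖ → ‖z‖ < 1 → ‖Θ z‖ < ε → ‖ext f z‖ / ω (1 - ‖z‖) ≤ C

def Div (X : (ℂ → ℂ) → Prop) (ω : ℝ → ℝ) : Prop :=
  ∀ f Θ : ℂ → ℂ, X f → H1 f → Inner Θ →
    List.TFAE [X fun ζ => f ζ * conj (bv Θ ζ), X (f * bv Θ) ∧ H1 (f * bv Θ),
      ∃ ε ∈ Ioo (0 : ℝ) 1, Three ω f Θ ε, ∀ ε ∈ Ioo (0 : ℝ) 1, Three ω f Θ ε]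

open Pool.Agent.H MP_3bea3b_an MP_193109_an MP_2feb19_an

theorem result (ω : ℝ → ℝ) (_hc : ContinuousOn ω (Ioo 0 1)) (hm : MonotoneOn ω (Ioo 0 1))
    (hp : ∀ t ∈ Ioo (0 : ℝ) 1, 0 < ω t) :
    (Div (BMO ω) ω ↔ ∃ C, ∀ s t, 0 < s → s ≤ t → t ≤ 1 / 2 → ω t / t ≤ C * (ω s / s)) ∧
    (Div (fun f => BMO ω f ∧ Linf f) ω ↔ ∃ C, ∀ s t, 0 < s → s ≤ t → t ≤ 1 / 2 → ω t / t ≤ C * (ω s / s)) := by
  have t : ∀ f Θ ε, H1 f → (Three ω f Θ ε ↔ Tw (fun t => ω (min t (1 / 2))) (MP_2feb19_an.ext f) Θ ε) :=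
    fun f Θ ε d => ⟨fun ⟨C, h⟩ => tr hm hp (ext_c d).norm (C := |C| + 1) (by positivity) one_pos fun z a b e =>
      (div_le_iff₀ (hp _ ⟨by linarith, by linarith⟩)).1 ((h z a b e).trans (by linarith [le_abs_self C])),
    fun h => (tr2 hm hp h).imp fun C h z a b e =>
      (div_le_iff₀ (hp _ ⟨by linarith, by linarith⟩)).2 (h.2 z a b e)⟩
  have k : ∀ L : (ℂ → ℂ) → Prop, (∀ f, Linf f → L f) → (∀ f g, L f → (∀ᵐ θ : ℝ, ‖g (MP_5011cf_an.ex θ)‖ = 1) →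
      L (f * g)) → (Div (fun f => BMO ω f ∧ L f) ω ↔
        ∃ C, ∀ s t, 0 < s → s ≤ t → t ≤ 1 / 2 → ω t / t ≤ C * (ω s / s)) := fun L l1 l2 => by
    constructor
    · intro h
      obtain ⟨C, hC⟩ := nec hm hp fun f Θ f1 f2 f3 a1 a2 a3 e => by
        have q := h f Θ ⟨f1, l1 f ⟨2, Eventually.of_forall fun θ => cm1 θ ▸ f2 θ⟩⟩ f3 ⟨a1, ⟨1, a2⟩, a3⟩
        have e1 : ∃ ε ∈ Ioo (0 : ℝ) 1, Three ω f Θ ε := ⟨_, by norm_num, (t f Θ _ f3).2 e⟩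
        have q1 : (BMO ω (f * bv Θ) ∧ L (f * bv Θ)) ∧ H1 (f * bv Θ) := (q.out 2 1).1 e1
        exact q1.1.1
      refine ⟨C, fun s u s0 s1 u1 => ?_⟩
      have := hC s u s0 s1 (by linarith)
      simp only [min_eq_left u1, min_eq_left (s1.trans u1)] at this
      rw [← mul_div_assoc, div_le_div_iff₀ (s0.trans_le s1) s0]
      linarith
    rintro ⟨C, h⟩ f Θ ⟨f1, f2⟩ f3 ⟨a1, ⟨N, hN⟩, a2⟩
    have ad := ad1 hp h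
    obtain ⟨b1, b2⟩ := rbv a1 (fun z => le1 a1 hN a2 (z := z)) a2
    have c := Complex.norm_conj
    tfae_have 1 → 4 := fun h ε e => (t f Θ ε f3).2 (dA hm hp f1 f3 b1 b2 conj c Complex.conj_conj h.1 e.1 e.2)
    tfae_have 2 → 4 := fun h ε e => (t f Θ ε f3).2 (dA hm hp f1 f3 b1 b2 (RingHom.id ℂ) (fun _ => rfl)
      (fun _ => rfl) h.1.1 e.1 e.2)
    tfae_have 4 → 3 := fun h => ⟨1 / 2, by norm_num, h _ (by norm_num)⟩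
    tfae_have 3 → 1 := fun ⟨ε, e, h⟩ => ⟨dB hm hp ad f1 f3 b1 b2 conj c Complex.continuous_conj e.1 e.2
      ((t f Θ ε f3).1 h), l2 f (fun ζ => conj (bv Θ ζ)) f2 (b2.mono fun θ e => (c _).trans e)⟩
    tfae_have 3 → 2 := fun ⟨ε, e, h⟩ => ⟨⟨dB hm hp ad f1 f3 b1 b2 (RingHom.id ℂ) (fun _ => rfl) continuous_id
      e.1 e.2 ((t f Θ ε f3).1 h), l2 f _ f2 b2⟩, b1.mul f3⟩
    tfae_finish
  refine ⟨by simpa only [and_true] using k (fun _ => True) (fun _ _ => trivial) fun _ _ _ _ => trivial,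
    k Linf (fun _ h => h) fun f g ⟨M, h⟩ e => ⟨M, (h.and e).mono fun θ ⟨h, e⟩ => ?_⟩⟩
  rwa [Pi.mul_apply, norm_mul, cm1, e, mul_one, ← cm1]

end Pool.Agent.Results.MP_2feb19_an.Division
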